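import Pool.Agent.Q188.Quasi.Final

/-!
# MP_a30120_gt, Q1: a two-vertex simple closed quasigeodesic which is not an edge-loop

The regular tetrahedron carries a simple closed quasigeodesic which passes through exactly two
vertices `A 0`, `A 1` and does not contain the edge between them.  This answers Q1 in the negative.

Idea.  The plane folds onto the surface of the regular tetrahedron with the vertices `(1,1,1)`,
`(1,-1,-1)`, `(-1,1,-1)`, `(-1,-1,1)` by `(s, t) ↦ (W t, W s, W (s + t))` with the triangle wave `W`
of period `2`; the lattice `ℤ²` is mapped onto the vertices.  The images of the segments from `(0,0)`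
to `(1, 2)` and to `(1, 4)` are geodesic arcs from `A 0` to `A 1` which meet only in their end points
(the determinant of `(1,2)` and `(1,4)` is `2`) and both differ from the edge, the image of the
segment from `(0,0)` to `(1,0)`.  All vertices have the total angle `π`, so that the closed curve
formed by the two arcs is a quasigeodesic.
-/

set_option autoImplicit false

namespace Pool.Agent.Results.MP_a30120_gt.NotEdgeLoop

open Set Q188.Quasi

/-- **There is a tetrahedron with a simple closed quasigeodesic through exactly two vertices that
does not contain the edge between them.** -/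
theorem result : ∃ A : Fin 4 → EuclideanSpace ℝ (Fin 3), AffineIndependent ℝ A ∧
    ∃ (γ : ℝ → EuclideanSpace ℝ (Fin 3)) (T : ℝ), SimpleClosedQuasigeodesic A γ T ∧
      A 0 ∈ range γ ∧ A 1 ∈ range γ ∧ A 2 ∉ range γ ∧ A 3 ∉ range γ ∧
      ¬ segment ℝ (A 0) (A 1) ⊆ range γ :=
  ⟨Reg, reg_indep, cv 1, 2, scq 1, reg_zero_mem 1, reg_one_mem 1, reg_two_not 1, reg_three_not 1,
    not_segment⟩

end Pool.Agent.Results.MP_a30120_gt.NotEdgeLoop
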